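import Pool.Agent.H94.LP3.H18.Iso.Pair
import Pool.Agent.H94.LP3.H74.BP.Red
import Pool.Agent.H94.LP3.M80

/-!
# Isolated singularities at general points: reduction to the large multiplicities

Let `n ≥ 2`, `M ≥ 1`, `ε > 0` and let `d` be large in terms of `n`, `M`, `ε`.  Suppose that some form of
degree at most `(1 - ε) d` vanishes to order at least `m_i` at the general points `p_i` with `m_i > M`.
Let `J` be the set of the points with `m_i > ε d / 2`; it has at most `⌈2 / ε⌉ ^ n` elements.  The question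
for `(d; m)` is reduced to the question for `J`, and it has a positive answer if `J` has at most `2 n - 1`
elements or `∑_{i ∈ J} m_i ≤ n d - 10 ^ 6 n ^ 3`.
-/

namespace Pool.Agent.Results.MP_0b14b0_ag.FewPointsSuffice

open Finset Pool.Agent.H18.Fat Pool.Agent.H18.Iso

/-- The assertion of the question for the points of `I`: if for general points some form of degree `d`
vanishing to order at least `m_i` at `p_i` for all `i` has isolated singularities at `p_i` for `i ∈ I`,
then for general points the system is non-special. -/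
def Holds (n d : ℕ) {h : ℕ} (m : Fin h → ℕ) (I : Set (Fin h)) : Prop :=
  (ForGeneralPoints n h fun p => ∃ F ∈ fatForms n d p m, ∀ i ∈ I, IsolatedAt F (p i)) →
    ForGeneralPoints n h fun p => ImposesMaximalConditions n d p m

/-- The multiplicities `m_i > ε d / 2`, the others being replaced by zero. -/
noncomputable def largePart {h : ℕ} (ε : ℝ) (d : ℕ) (m : Fin h → ℕ) : Fin h → ℕ :=
  open scoped Classical in fun i => if ε / 2 * d < (m i : ℝ) then m i else 0

/-- Reduction to the large multiplicities. -/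
theorem result (n M : ℕ) (hn : 2 ≤ n) (hM : 1 ≤ M) (ε : ℝ) (hε : 0 < ε) : ∃ d₀ : ℕ,
    ∀ (h d : ℕ) (m : Fin h → ℕ), d₀ ≤ d →
    (∃ j : ℕ, (j : ℝ) ≤ (1 - ε) * d ∧ ForGeneralPoints n h fun p =>
      ∃ F ∈ fatForms n j p (fun i => if M < m i then m i else 0), F ≠ 0) →
    {i | ε / 2 * d < (m i : ℝ)}.ncard ≤ ⌈2 / ε⌉₊ ^ n ∧
    (Holds n d (largePart ε d m) {i | ε / 2 * d < (m i : ℝ)} → Holds n d m Set.univ) ∧
    ({i | ε / 2 * d < (m i : ℝ)}.ncard ≤ 2 * n - 1 ∨
      ∑ i, largePart ε d m i + 10 ^ 6 * n ^ 3 ≤ n * d → Holds n d m Set.univ) := by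
  classical
  obtain ⟨d₀, hd₀⟩ := Pool.Agent.H74.BP.reduction n M hn hM ε hε
  obtain ⟨K, E, hK⟩ := Pool.Agent.H74.CT.all_pairs n hn
  have hDD : Pool.Agent.H74.CT.DD n 1 = 10 ^ 6 * n ^ 3 := by
    unfold Pool.Agent.H74.CT.DD
    have h1 : 1 + n - 1 = n := by omega
    rw [h1, Nat.choose_self]
    ring
  set D := 10 ^ 6 * n ^ 3 with hD
  obtain ⟨d₁, hd₁⟩ := exists_nat_ge (D / ε)
  refine ⟨d₀ + d₁ + 3 * D, fun h d m hd he => ?_⟩
  have hdD : (D : ℝ) ≤ ε * d := by
    have h1 : (D / ε : ℝ) ≤ d := hd₁.trans (by exact_mod_cast (by omega : d₁ ≤ d))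
    rw [div_le_iff₀ hε] at h1
    linarith
  set J := univ.filter fun i : Fin h => ε / 2 * d < (m i : ℝ) with hJdef
  have hJ : ∀ i, i ∈ J ↔ ε / 2 * d < (m i : ℝ) := by
    intro i
    rw [hJdef, mem_filter]
    exact ⟨fun h => h.2, fun h => ⟨mem_univ i, h⟩⟩
  have hJset : {i : Fin h | ε / 2 * d < (m i : ℝ)} = (J : Set (Fin h)) := by
    ext i
    exact (hJ i).symm
  have hlarge : largePart ε d m = fun i => if i ∈ J then m i else 0 := by
    funext i
    unfold largePart
    by_cases hi : ε / 2 * d < (m i : ℝ)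
    · rw [if_pos hi, if_pos ((hJ i).2 hi)]
    · rw [if_neg hi, if_neg fun h => hi ((hJ i).1 h)]
  obtain ⟨j, hj1, hj2⟩ := he
  have hj3 : 0 < Pool.Agent.H18.Fat.generalDim n j fun i => if M < m i then m i else 0 := by
    obtain ⟨p, ⟨F, hF, hF0⟩, hp2⟩ := Pool.Agent.H18.Cub.exists_of_general
      (hj2.and (Pool.Agent.H18.Ub.generalDim_spec n j fun i => if M < m i then m i else 0))
    rw [← hp2]
    have := Pool.Agent.H74.CT.fin_fatForms n j p fun i => if M < m i then m i else 0
    rw [Module.finrank_pos_iff_exists_ne_zero]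
    exact ⟨⟨F, hF⟩, fun h => hF0 (congrArg Subtype.val h)⟩
  obtain ⟨hcard, hle, hred⟩ := hd₀ h d m J (by omega) hJ ⟨j, hj1, hj3⟩
  have hsub : ∀ (p : Fin h → Fin (n + 1) → ℂ), fatForms n d p m ≤
      fatForms n d p fun i => if i ∈ J then m i else 0 := by
    intro p F hF
    refine ⟨hF.1, fun i => Pool.Agent.H74.CT.van_mono (hF.2 i) ?_⟩
    dsimp only
    split_ifs
    · exact le_rfl
    · exact Nat.zero_le _
  refine ⟨by rw [hJset, Set.ncard_coe_finset]; exact hcard, fun hJQ hiso => ?_, fun hor hiso => ?_⟩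
  · refine hred ?_
    rw [← hlarge]
    refine hJQ (hiso.mono fun p hp => ?_)
    obtain ⟨F, hF, hFi⟩ := hp
    rw [hlarge]
    exact ⟨F, hsub p hF, fun i _ => hFi i (Set.mem_univ i)⟩
  · refine hred ?_
    rw [hJset, Set.ncard_coe_finset, hlarge] at hor
    have hpair := pair_le (by omega) m (hiso.mono fun p hp => by
      obtain ⟨F, hF, hFi⟩ := hp
      exact ⟨F, hF, fun i => hFi i (Set.mem_univ i)⟩)
    refine hK 1 le_rfl h d (fun i => if i ∈ J then m i else 0) J (by rw [hDD]; omega)
      (fun i hi => by rw [if_neg hi]; exact Nat.zero_le _) (Or.inl fun i hi => ?_) ?_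
      fun i j hij => ?_
    · rw [hDD, if_pos hi]
      have h1 := hle i hi
      have h2 : ((m i + D : ℕ) : ℝ) ≤ (d : ℝ) := by
        push_cast
        nlinarith
      exact_mod_cast h2
    · rw [hDD]
      rcases hor with hor | hor
      · exact Or.inl (by omega)
      · refine Or.inr ?_
        have h1 : ∑ i ∈ J, (if i ∈ J then m i else 0) = ∑ i, (if i ∈ J then m i else 0) := by
          refine sum_subset (subset_univ J) fun i _ hi => if_neg hi
        rw [h1]
        exact hor
    · have h1 := hpair i j hij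
      split_ifs <;> omega

end Pool.Agent.Results.MP_0b14b0_ag.FewPointsSuffice
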