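import Pool.Agent.H94.LP5.H48.IsoV
import Pool.Agent.H94.LP5.M58

/-!
# Isolated singularities at general points: all dimensions `n ≥ n₁(d)`, and bounded multiplicities

Suppose that for general points of `ℙ^n` some form of degree `d` with multiplicities at least
`m_1, …, m_h` at the points has isolated singularities at all the points.  Then the system is
non-special if `n ≥ n₁(d)` (all multiplicities), and for multiplicities at most `M` if `n ≥ n₀(M)` or
`d ≥ C M^{1 + 22/n} (1 + M/n)^3`, with an absolute constant `C`; so for every `M` for all but finitely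
many pairs `(n, d)`.

There is no window: the number of conditions may be equal or arbitrarily close to the number of
forms.
-/

namespace Pool.Agent.Results.MP_0b14b0_ag.HighDimension

open Pool.Agent.H18.Fat Pool.Agent.H18.Iso

/-- There are `C > 0` and `n₀, n₁ : ℕ → ℕ` such that the following holds for all `n, M ≥ 1`, all `d`, `h`
and all multiplicities `1 ≤ m_1, …, m_h ≤ M`, if `n ≥ n₁(d)`, or `n ≥ n₀(M)`, or
`d ≥ C M (1 + M / n) ^ 3 M ^ (22 / n)`: if for general points `p_1, …, p_h` of `ℙ^n` some form of degree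
`d` vanishing to order at least `m_i` at `p_i` for all `i` has isolated singularities at all `p_i`, then
for general points the system is non-special. -/
theorem result :
    ∃ C : ℝ, 0 < C ∧ ∃ n₀ n₁ : ℕ → ℕ, ∀ n d M h : ℕ, 1 ≤ n → 1 ≤ M → ∀ m : Fin h → ℕ,
      (∀ i, 1 ≤ m i ∧ m i ≤ M) →
      (n₁ d ≤ n ∨ n₀ M ≤ n ∨ C * M * (1 + (M : ℝ) / n) ^ 3 * (M : ℝ) ^ (22 / (n : ℝ)) ≤ d) →
      (ForGeneralPoints n h fun p => ∃ F ∈ fatForms n d p m, ∀ i, IsolatedAt F (p i)) →
      ForGeneralPoints n h fun p => ImposesMaximalConditions n d p m := by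
  obtain ⟨h1, -, C, hC, n₀, h3⟩ := Pool.Agent.H48.IsoV.iso_final Pool.Agent.V7.crit
  choose n₁ hn₁ using h1
  refine ⟨C, hC, n₀, n₁, fun n d M h hn hM m hm hcase hiso => ?_⟩
  rcases hcase with h4 | h4
  · exact hn₁ d n h h4 hn m (fun i => (hm i).1) hiso
  · exact h3 n d M h hn hM m hm h4 hiso

end Pool.Agent.Results.MP_0b14b0_ag.HighDimension
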