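import Pool.Agent.H94.LP1.H18.Iso.Pair
import Pool.Agent.H94.LP1.M51

/-!
# Isolated singularities at general points: the large multiplicities may be many

For every `n ≥ 2` there are `K`, `E` such that the following holds for all `M ≥ 1`.  Let
`D = 10^6 n^3 M^8 binom(M + n - 1, n)^3`, let `d ≥ 3 D` and let `J` be a set of indices, of any size,
with `m_i ≤ M` for `i ∉ J`.  Suppose that `J` has at most `2 n - 1` elements or that
`∑_{i ∈ J} m_i ≤ n d - D`.  Suppose also that `m_i ≤ d - D` for `i ∈ J`, or that `n ≥ 3` and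
`d ≥ K M^E`.  If for general points the system has a member with isolated singularities at all the
points, then the system is non-special.
-/

namespace Pool.Agent.Results.MP_0b14b0_ag.ManyLarge

open Pool.Agent.H18.Fat Pool.Agent.H18.Iso

/-- For every `n ≥ 2` there are `K, E` such that for all `M ≥ 1`, with
`D = 10^6 n^3 M^8 binom(M + n - 1, n)^3`, all `d ≥ 3 D`, all `m_1, …, m_h ≥ 0` and every set `J` of
indices with `m_i ≤ M` for `i ∉ J` the following holds.  Suppose that `m_i + D ≤ d` for `i ∈ J`, or that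
`n ≥ 3` and `d ≥ K M^E`; and suppose that `J` has at most `2 n - 1` elements or that
`∑_{i ∈ J} m_i + D ≤ n d`.  If for general points `p_1, …, p_h` of `P^n` some form of degree `d`
vanishing to order at least `m_i` at `p_i` for all `i` has isolated singularities at all `p_i`, then for
general points the system is non-special. -/
theorem result (n : ℕ) (hn : 2 ≤ n) : ∃ K E : ℕ, ∀ M D : ℕ, 1 ≤ M →
    D = 10 ^ 6 * n ^ 3 * M ^ 8 * (M + n - 1).choose n ^ 3 →
    ∀ (h d : ℕ) (m : Fin h → ℕ) (J : Finset (Fin h)), 3 * D ≤ d → (∀ i, i ∉ J → m i ≤ M) →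
    ((∀ i ∈ J, m i + D ≤ d) ∨ (3 ≤ n ∧ K * M ^ E ≤ d)) →
    (J.card ≤ 2 * n - 1 ∨ ∑ i ∈ J, m i + D ≤ n * d) →
    (ForGeneralPoints n h fun p => ∃ F ∈ fatForms n d p m, ∀ i, IsolatedAt F (p i)) →
    ForGeneralPoints n h fun p => ImposesMaximalConditions n d p m := by
  obtain ⟨K, E, hK⟩ := Pool.Agent.H74.CT.all_pairs n hn
  refine ⟨K, E, fun M D hM hD h d m J hd hJ hor hsum hiso => ?_⟩
  have hDD : Pool.Agent.H74.CT.DD n M = D := hD.symm
  refine hK M hM h d m J (by rw [hDD]; exact hd) hJ (by rw [hDD]; exact hor) ?_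
    (pair_le (by omega) m hiso)
  rw [hDD]
  rcases hsum with h1 | h1
  · exact Or.inl (by omega)
  · exact Or.inr h1

end Pool.Agent.Results.MP_0b14b0_ag.ManyLarge
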