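import Pool.Agent.H94.LP4.H74.SC.IsoS
import Pool.Agent.H94.LP4.M65

/-!
# Isolated singularities at general points of the plane: large virtual dimension

Suppose that for general points `p_1, …, p_h` of the plane (`h ≥ 3`) the system `(d; m_1, …, m_h)` has a member
with isolated singularities at all `p_i` (`HasIsolated`), and let `N = binom(d + 2, 2) - ∑ binom(m_i + 1, 2)` be
the virtual number of forms.

(1) For every `δ > 0` there is `d₀` such that the system is non-special if `d ≥ d₀` and `N ≥ (1 / 74 + δ) d ^ 2`.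
There is no condition on the multiplicities.

(2) For every `δ > 0` there are `η > 0` and `d₀` such that the system is non-special if `d ≥ d₀` and
`N ≥ δ d ^ 2`, unless some chain of standard quadratic transformations leads to a system `(d'; m')` in standard
form, `d' ≤ d`, `m'_i ≤ m_i`, such that the `m'_i ≥ η d'` are at least ten in number, their sum is larger than
`(3 - δ) d'` and the sum of their squares is larger than `(36 / 37 - δ) d' ^ 2`.

(3) There is an absolute constant `K` such that the system is non-special if `m_i ≤ μ` for all but at most eight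
`i` and `N ≥ (K + μ) * (d + 1)`.

(4) There are `K, E` such that for all `M ≥ 1`, with `D = K * M ^ E`: if at most eight of the `m_i` exceed `M` and
`N ≥ D`, or at most nine of the `m_i` exceed `M` and `N ≥ D * (d + 1)`, then the system is non-special.  If at
most nine exceed `M`, the system is non-special or some chain of standard quadratic transformations leads to a
system `(d'; m')` in standard form with `d' < D` or, for nine large multiplicities, `3 d' - ∑_J m'_i < D`.

(5) `N` does not change under any chain of standard quadratic transformations of the plane, each based at three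
of the points, negative multiplicities being replaced by `0`.
-/

namespace Pool.Agent.Results.MP_0b14b0_ag.PlaneNine

open Finset Pool.Agent.H18.Fat Pool.Agent.H18.Iso Pool.Agent.H18.Pr

/-- The virtual number of forms (the virtual dimension plus one). -/
def virtualNumber (d : ℕ) {h : ℕ} (m : Fin h → ℕ) : ℤ :=
  ((d + 2).choose 2 : ℤ) - ∑ i, ((m i + 1).choose 2 : ℤ)

/-- For general points `p_i` some form of degree `d` vanishing to order at least `m_i` at `p_i` for all `i` has
isolated singularities at all `p_i`. -/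
def HasIsolated (d : ℕ) {h : ℕ} (m : Fin h → ℕ) : Prop :=
  ForGeneralPoints 2 h fun p => ∃ F ∈ fatForms 2 d p m, ∀ i, IsolatedAt F (p i)

/-- For general points the system is non-special. -/
def NonSpecial (d : ℕ) {h : ℕ} (m : Fin h → ℕ) : Prop :=
  ForGeneralPoints 2 h fun p => ImposesMaximalConditions 2 d p m

open scoped Classical in
/-- Main theorem. -/
theorem result :
    -- (1) large virtual dimension
    (∀ δ : ℝ, 0 < δ → ∃ d₀ : ℕ, ∀ (h d : ℕ) (m : Fin h → ℕ), 3 ≤ h → d₀ ≤ d →
      (1 / 74 + δ) * d ^ 2 ≤ (virtualNumber d m : ℝ) → HasIsolated d m → NonSpecial d m) ∧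
    -- (2) virtual dimension of the order of `d ^ 2`
    (∀ δ : ℝ, 0 < δ → ∃ (η : ℝ) (d₀ : ℕ), 0 < η ∧ ∀ (h d : ℕ) (m : Fin h → ℕ), 3 ≤ h → d₀ ≤ d →
      δ * d ^ 2 ≤ (virtualNumber d m : ℝ) → HasIsolated d m →
      NonSpecial d m ∨ ∃ (d' : ℕ) (m' : Fin h → ℕ), Cremona 2 d m d' m' ∧ d' ≤ d ∧
        (∀ i, m' i ≤ m i) ∧ (∀ S : Finset (Fin h), S.card ≤ 3 → ∑ i ∈ S, m' i ≤ d') ∧
        10 ≤ (univ.filter (fun i : Fin h => η * d' ≤ (m' i : ℝ))).card ∧
        (36 / 37 - δ) * (d' : ℝ) ^ 2 <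
          ∑ i ∈ univ.filter (fun i : Fin h => η * d' ≤ (m' i : ℝ)), (m' i : ℝ) ^ 2 ∧
        (3 - δ) * (d' : ℝ) <
          ∑ i ∈ univ.filter (fun i : Fin h => η * d' ≤ (m' i : ℝ)), (m' i : ℝ)) ∧
    -- (3) at most eight multiplicities larger than `μ`
    (∃ K : ℕ, ∀ (h d μ : ℕ) (m : Fin h → ℕ) (J : Finset (Fin h)),
      3 ≤ h → J.card ≤ 8 → (∀ i, i ∉ J → m i ≤ μ) →
      (((K + μ) * (d + 1) : ℕ) : ℤ) ≤ virtualNumber d m → HasIsolated d m → NonSpecial d m) ∧
    -- (4) at most nine multiplicities larger than `M`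
    (∃ K E : ℕ, ∀ M : ℕ, 1 ≤ M → ∀ (h d : ℕ) (m : Fin h → ℕ) (J : Finset (Fin h)),
      3 ≤ h → J.card ≤ 9 → (∀ i, i ∉ J → m i ≤ M) → HasIsolated d m →
      (J.card ≤ 8 ∧ ((K * M ^ E : ℕ) : ℤ) ≤ virtualNumber d m ∨
          ((K * M ^ E * (d + 1) : ℕ) : ℤ) ≤ virtualNumber d m →
        NonSpecial d m) ∧
      (NonSpecial d m ∨ ∃ (d' : ℕ) (m' : Fin h → ℕ), Cremona 2 d m d' m' ∧ d' ≤ d ∧
        (∀ i, m' i ≤ m i) ∧ (∀ S : Finset (Fin h), S.card ≤ 3 → ∑ i ∈ S, m' i ≤ d') ∧
        (d' < K * M ^ E ∨ (J.card = 9 ∧ 3 * d' < ∑ i ∈ J, m' i + K * M ^ E)))) ∧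
    -- (5) quadratic transformations
    (∀ (h d d' : ℕ) (m m' : Fin h → ℕ), Cremona 2 d m d' m' → HasIsolated d m →
      virtualNumber d' m' = virtualNumber d m) := by
  refine ⟨fun δ hδ => ?_, fun δ hδ => ?_, Pool.Agent.H18.Sq.eight_med, ?_,
    fun h d d' m m' hcr hiso => Pool.Agent.H18.Sq.virt_eq_of_isolated hcr hiso⟩
  · exact Pool.Agent.H74.SC.iso_big δ hδ
  · obtain ⟨η, d₀, hη, H⟩ := Pool.Agent.H74.SC.iso_struct δ hδ
    refine ⟨η, d₀, hη, fun h d m hh hd hv hiso => ?_⟩
    rcases H h d m hh hd hv hiso with h1 | ⟨d', m', h1, h2, h3, h4, -, h6, h7, h8⟩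
    · exact Or.inl h1
    · exact Or.inr ⟨d', m', h1, h2, h3, h4, h6, h7, h8⟩
  · obtain ⟨K, E, H⟩ := Pool.Agent.H18.Sq.nine_virt
    refine ⟨K, E, fun M hM h d m J hh hJ hsmall hiso => ?_⟩
    exact ⟨(H M hM h d m J hh hJ hsmall hiso).2, (H M hM h d m J hh hJ hsmall hiso).1⟩

end Pool.Agent.Results.MP_0b14b0_ag.PlaneNine
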